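import Pool.Agent.Helper33.QB.Defs
import Pool.Agent.Helper61.QB.Order
import Pool.Agent.Helper63.QB.Union
import Pool.Agent.Helper55.QB.Res

/-!
# Project QB, F3b: the sets `V i` are closed under unions
-/

set_option autoImplicit false

namespace Pool.Agent.Helper33.QB

open Set

universe v

variable {Ω : Type} {I : Type v} {α : Ordinal.{0}}

section F3b

variable [LinearOrder I] {p q r s : Cnd Ω I} {pn : ℕ → Cnd Ω I} {b : I → NmD Ω I} {i j k : I}

/-- A union of decided conditions is decided. -/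
theorem Dec.union {d : NmD Ω I} (hb : ∀ n, Basic α (pn n)) (hq : Basic α q)
    (hle : ∀ n, Le (pn (n + 1)) (pn n)) (hu : IsUn q pn)
    (hd : ∀ n, ∃ m ≥ n, Dec d (pn m)) : Dec d q := by
  constructor
  · obtain ⟨m, -, hm⟩ := hd 0
    exact Le.trans' hq (hb m) (hu.le m) hm.1
  · intro a ha
    rw [hu.Y, mem_iUnion] at ha
    obtain ⟨n, hn⟩ := ha
    obtain ⟨m, hmn, hm⟩ := hd n
    obtain ⟨ε, p', h1, h2⟩ := hm.2 a ((Le.seq hb hle hmn).cp.sub hn)
    exact ⟨ε, p', h1, Le.trans' hq (hb m) (hu.le m) h2⟩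

theorem h15_isUn_res (hu : IsUn q pn) (l : I) : IsUn (res q l) (fun n => res (pn n) l) where
  Y := hu.Y
  R := hu.R
  S := by
    ext x
    simp only [res, hu.S, mem_iUnion, mem_setOf_eq]
    constructor
    · rintro ⟨⟨n, hn⟩, hx⟩
      exact ⟨n, hn, hx⟩
    · rintro ⟨n, hn, hx⟩
      exact ⟨⟨n, hn⟩, hx⟩
  le n := (hu.le n).res l

variable [WellFoundedLT I]

/-- The main step: the requirements for the letter `l` in the union. -/
theorem h15_union_letter (hV : ∀ n, pn n ∈ V α b i) (hle : ∀ n, Le (pn (n + 1)) (pn n))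
    (hq : Basic α q) (hu : IsUn q pn) {l : I} (hl : l ∈ q.S) (hres : res q l ∈ V α b l) :
    l < i ∧ Nice (b l) (V α b l) ∧ Dec (b l) (res q l) ∧
      q.h l '' q.Y = ev (b l) (res q l) := by
  have hb : ∀ n, Basic α (pn n) := fun n => V.basic (hV n)
  rw [hu.S, mem_iUnion] at hl
  obtain ⟨n0, hn0⟩ := hl
  have hlS : ∀ m ≥ n0, l ∈ (pn m).S := fun m hm => (Le.seq hb hle hm).S hn0
  have hlm : ∀ m ≥ n0, l < i ∧ Nice (b l) (V α b l) ∧ Dec (b l) (res (pn m) l) ∧
      (pn m).h l '' (pn m).Y = ev (b l) (res (pn m) l) := fun m hm =>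
    (mem_V.1 (hV m)).2 l (hlS m hm)
  have hlate : ∀ a ∈ q.Y, ∃ m ≥ n0, a ∈ (pn m).Y := by
    intro a ha
    rw [hu.Y, mem_iUnion] at ha
    obtain ⟨n, hn⟩ := ha
    exact ⟨max n n0, le_max_right _ _, (Le.seq hb hle (le_max_left n n0)).cp.sub hn⟩
  obtain ⟨h1, h2, -, -⟩ := hlm n0 le_rfl
  refine ⟨h1, h2, ?_, ?_⟩
  · exact Dec.union (fun n => (hb n).res l) (hq.res l) (fun n => (hle n).res l)
      (h15_isUn_res hu l) fun n => ⟨max n n0, le_max_left _ _, (hlm _ (le_max_right _ _)).2.2.1⟩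
  · ext a
    constructor
    · rintro ⟨x, hx, rfl⟩
      obtain ⟨m, hm, hxm⟩ := hlate x hx
      rw [(hu.le m).h l (hlS m hm) x hxm]
      have h3 : (pn m).h l x ∈ ev (b l) (res (pn m) l) := by
        rw [← (hlm m hm).2.2.2]
        exact mem_image_of_mem _ hxm
      exact ev_mono (hq.res l) ((hb m).res l) ((hu.le m).res l) h3
    · rintro ⟨ha, p', hp', hlp'⟩
      obtain ⟨m, hm, ham⟩ := hlate a ha
      have h3 : a ∈ ev (b l) (res (pn m) l) := by
        obtain ⟨ε, p'', h4, h5⟩ := (hlm m hm).2.2.1.2 a ham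
        cases ε with
        | true => exact ⟨ham, p'', h4, h5⟩
        | false =>
          exact (h2.cons _ hres a p' p'' hp' h4 hlp'
            (Le.trans' (hq.res l) ((hb m).res l) ((hu.le m).res l) h5)).elim
      rw [← (hlm m hm).2.2.2] at h3
      obtain ⟨x, hx, rfl⟩ := h3
      exact ⟨x, (hu.le m).cp.sub hx, (hu.le m).h l (hlS m hm) x hx⟩

theorem h15_union_res (hV : ∀ n, pn n ∈ V α b i) (hle : ∀ n, Le (pn (n + 1)) (pn n))
    (hq : Basic α q) (hu : IsUn q pn) : ∀ j, res q j ∈ V α b j := by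
  intro j
  induction j using WellFoundedLT.induction with
  | ind j ih =>
    rw [mem_V]
    refine ⟨hq.res j, ?_⟩
    rintro l ⟨hl, hlj⟩
    obtain ⟨-, h2, h3, h4⟩ := h15_union_letter hV hle hq hu hl (ih l hlj)
    rw [res_res hlj.le]
    refine ⟨hlj, h2, h3, ?_⟩
    have h5 : (res q j).h l = q.h l := by simp only [res, if_pos hlj]
    rw [h5]
    exact h4

/-- The sets `V i` are closed under unions. -/
theorem V.union (hV : ∀ n, pn n ∈ V α b i) (hle : ∀ n, Le (pn (n + 1)) (pn n)) :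
    ∃ q ∈ V α b i, IsUn q pn := by
  obtain ⟨q, hq, hu⟩ := exists_isUn (fun n => V.basic (hV n)) hle
  refine ⟨q, ?_, hu⟩
  rw [mem_V]
  exact ⟨hq, fun l hl => h15_union_letter hV hle hq hu hl (h15_union_res hV hle hq hu l)⟩

end F3b

end Pool.Agent.Helper33.QB
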