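import Pool.Agent.Helper33.QB.Defs
import Pool.Agent.Helper33.QB.LimDefs
import Pool.Agent.Helper84.QB.Acts
import Pool.Agent.Helper61.QB.Order
import Pool.Agent.Helper63.QB.Union
import Pool.Agent.Helper54.QB.Choice1
import Pool.Agent.Helper64.QB.LimRing
import Pool.Agent.Helper59.QB.LimMaps

/-!
# Project QB, J5a: the limit semi-condition is a semi-condition
-/

set_option autoImplicit false

namespace Pool.Agent.Helper33.QB

open Set

universe v

variable {Ω : Type} {I : Type v} {α : Ordinal.{0}}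

section J5a

variable {pn : ℕ → Cnd Ω I} {p : Cnd Ω I} {xn : ℕ → Ω} {pt : ℕ → FreeGroup I → Ω}
  {K : ℕ → FreeGroup I → Set Ω} {ν : FreeGroup I → Ω}

theorem h15_old (h : LimSet α pn p xn pt) : old pn = p.Y := h.un.Y.symm

theorem h15_mono (h : LimSet α pn p xn pt) {m n : ℕ} (hmn : m ≤ n) : (pn m).Y ⊆ (pn n).Y :=
  (Le.seq h.bn h.le hmn).cp.sub

theorem h15_sub (h : LimSet α pn p xn pt) (n : ℕ) : (pn n).Y ⊆ p.Y := (h.un.le n).cp.sub

theorem h15_itv_sub (h : LimSet α pn p xn pt) (n : ℕ) : Itv pn n ⊆ p.Y :=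
  fun _ hx => h15_sub h (n + 1) hx.1

/-- Members of the ring of `pn n` are members of the limit ring. -/
theorem h15_mem_R (h : LimSet α pn p xn pt) (hν' : ∀ w ∈ R0 p xn, ν w ∉ p.Y) {n : ℕ}
    {O : Set Ω} (hO : O ∈ (pn n).R) : O ∈ (limS pn p xn pt K ν).R := by
  have hOn : O ⊆ (pn n).Y := (h.bn n).gr.sub O hO
  have hOp : O ⊆ p.Y := hOn.trans (h15_sub h n)
  refine ⟨hOp.trans subset_union_left, ?_, ?_, n, ?_⟩
  · rw [diff_eq_empty.2 hOp]; exact finite_empty
  · intro m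
    have h1 : O ∈ p.R := (((h.un.le n).cp.ring O).1 hO).1
    exact ((h.un.le m).cp.ring _).2 ⟨(h.un.le m).cp.cut O h1, inter_subset_right⟩
  · intro m hm
    have h1 : O ∩ Itv pn m = ∅ := by
      ext x
      simp only [mem_inter_iff, mem_empty_iff_false, iff_false, not_and]
      intro hx hx'
      exact hx'.2 (h15_mono h hm (hOn hx))
    rw [h1]
    symm
    simp only [iUnion_eq_empty]
    intro w hw
    exact absurd (hOp hw.2) (hν' w hw.1)

theorem h15_cp (h : LimSet α pn p xn pt) (hν' : ∀ w ∈ R0 p xn, ν w ∉ p.Y) (n : ℕ) :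
    Cp (pn n) (limS pn p xn pt K ν) where
  sub := (h15_sub h n).trans subset_union_left
  ring O := by
    constructor
    · intro hO
      exact ⟨h15_mem_R h hν' hO, (h.bn n).gr.sub O hO⟩
    · rintro ⟨hO, hOn⟩
      have := hO.2.2.1 n
      rwa [inter_eq_left.2 hOn] at this
  cut O hO := h15_mem_R h hν' (hO.2.2.1 n)
  rk x hx := by
    have h1 : x ∈ p.Y := h15_sub h n hx
    have h2 : (limS pn p xn pt K ν).r x = p.r x := by simp only [limS, if_pos h1]
    rw [h2, (h.un.le n).cp.rk x hx]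

theorem h15_out (h : LimSet α pn p xn pt) (hν : InjOn ν (R0 p xn))
    (hν' : ∀ w ∈ R0 p xn, ν w ∉ p.Y) {i : I} (hi : i ∈ p.S) {w : FreeGroup I}
    (hw : w ∈ R0 p xn) : (limS pn p xn pt K ν).h i (ν w) ∉ p.Y := by
  rw [limS_h_new hν hν' hi hw]
  exact hν' _ (h.of_mul_mem hw hi)

/-- The new points are permuted freely. -/
theorem h15_frL (h : LimSet α pn p xn pt) (hν : InjOn ν (R0 p xn))
    (hν' : ∀ w ∈ R0 p xn, ν w ∉ p.Y) :
    Free fun i x y => i ∈ (limS pn p xn pt K ν).S ∧ x ∈ (limS pn p xn pt K ν).Y ∧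
      x ∉ old pn ∧ y = (limS pn p xn pt K ν).h i x := by
  have hL : ∀ x, x ∈ (limS pn p xn pt K ν).Y → x ∉ old pn → ∃ w ∈ R0 p xn, ν w = x := by
    intro x hx hx'
    rw [h15_old h] at hx'
    rcases hx with hx | ⟨w, hw, rfl⟩
    · exact absurd hx hx'
    · exact ⟨w, hw, rfl⟩
  have key : ∀ g x y, Acts (fun i x y => i ∈ (limS pn p xn pt K ν).S ∧
      x ∈ (limS pn p xn pt K ν).Y ∧ x ∉ old pn ∧ y = (limS pn p xn pt K ν).h i x) g x y →
      (∀ w ∈ R0 p xn, ν w = x → g * w ∈ R0 p xn ∧ y = ν (g * w)) ∧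
        ((¬ ∃ w ∈ R0 p xn, ν w = x) → g = 1 ∧ y = x) := by
    intro g x y hg
    induction hg with
    | one x => exact ⟨fun w hw hx => by rw [one_mul]; exact ⟨hw, hx.symm⟩, fun _ => ⟨rfl, rfl⟩⟩
    | @fwd g x y z i _ hG ih =>
      obtain ⟨hi, hy, hy', rfl⟩ := hG
      constructor
      · intro w hw hx
        obtain ⟨h1, h2⟩ := ih.1 w hw hx
        rw [h2, limS_h_new hν hν' hi h1, mul_assoc]
        exact ⟨h.of_mul_mem h1 hi, rfl⟩
      · intro hx
        obtain ⟨h1, h2⟩ := ih.2 hx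
        rw [h2] at hy hy'
        exact absurd (hL x hy hy') hx
    | @bwd g x y z i _ hG ih =>
      obtain ⟨hi, hz, hz', hy⟩ := hG
      obtain ⟨w', hw', rfl⟩ := hL z hz hz'
      rw [limS_h_new hν hν' hi hw'] at hy
      have hiw := h.of_mul_mem hw' hi
      constructor
      · intro w hw hx
        obtain ⟨h1, h2⟩ := ih.1 w hw hx
        rw [hy] at h2
        have h3 := hν hiw h1 h2
        have h4 : (FreeGroup.of i)⁻¹ * g * w = w' := by
          rw [mul_assoc, ← h3, inv_mul_cancel_left]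
        rw [h4]
        exact ⟨hw', rfl⟩
      · intro hx
        obtain ⟨h1, h2⟩ := ih.2 hx
        exact absurd ⟨_, hiw, by rw [← hy, h2]⟩ hx
  intro g x hg
  by_cases hx : ∃ w ∈ R0 p xn, ν w = x
  · obtain ⟨w, hw, hwx⟩ := hx
    obtain ⟨h1, h2⟩ := (key g x x hg).1 w hw hwx
    have h3 := hν hw h1 (hwx.trans h2)
    exact (mul_eq_right (b := w)).1 h3.symm
  · exact ((key g x x hg).2 hx).1

/-- The graph on the old part is the graph `New (pn n) p`. -/
theorem h15_graph (h : LimSet α pn p xn pt) (n : ℕ) : ∀ i x y,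
    (i ∈ (pn n).S ∧ x ∈ old pn ∧ x ∉ (pn n).Y ∧ y = (limS pn p xn pt K ν).h i x) →
      New (pn n) p i x y := by
  rintro i x y ⟨hi, hx, hx', rfl⟩
  rw [h15_old h] at hx
  exact ⟨hi, hx, hx', limS_h_old ν ((h.un.le n).S hi) hx⟩

theorem h15_stay (h : LimSet α pn p xn pt) {n m : ℕ} (hnm : n ≤ m) : ∀ i x y,
    New (pn n) p i x y → (x ∈ (pn m).Y ↔ y ∈ (pn m).Y) := by
  rintro i x y ⟨hi, hx, -, rfl⟩
  have hi' : i ∈ (pn m).S := (Le.seq h.bn h.le hnm).S hi
  constructor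
  · intro hxm
    rw [(h.un.le m).h i hi' x hxm]
    exact ((h.bn m).ce i hi').maps x hxm
  · intro hy
    by_contra hxm
    exact (h.un.le m).out i hi' x hx hxm hy

theorem h15_pr (h : LimSet α pn p xn pt) (hK : EK pn p xn pt K) (hν : InjOn ν (R0 p xn))
    (hν' : ∀ w ∈ R0 p xn, ν w ∉ p.Y) (n : ℕ) {O : Set Ω} (hO : O ∈ (limS pn p xn pt K ν).R) :
    {g | ∃ x ∈ O, ∃ y ∈ O, Acts (New (pn n) p) g x y}.Finite := by
  obtain ⟨hO1, hO2, hO3, N0, hO4⟩ := hO
  set W : Set (FreeGroup I) := {w | w ∈ R0 p xn ∧ ν w ∈ O} with hW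
  have hWf : W.Finite := by
    refine Finite.of_finite_image (f := ν) (hO2.subset ?_) fun a ha b hb => hν ha.1 hb.1
    rintro _ ⟨w, hw, rfl⟩
    exact ⟨hw.2, hν' w hw.1⟩
  have hWW : (W ×ˢ W).Finite := hWf.prod hWf
  have hbd : ∃ N : ℕ, ∀ q ∈ W ×ˢ W, ∀ m ≥ N, ∀ x ∈ K m q.1, ∀ y ∈ K m q.2, ∀ g,
      Acts (New (pn n) p) g x y → g = q.2 * q.1⁻¹ := by
    choose! f hf using fun (q : FreeGroup I × FreeGroup I) (hq : q ∈ W ×ˢ W) =>
      hK.e2 q.1 hq.1.1 q.2 hq.2.1 n
    obtain ⟨N, hN⟩ := (hWW.image f).bddAbove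
    exact ⟨N, fun q hq m hm => hf q hq m ((hN (mem_image_of_mem f hq)).trans hm)⟩
  obtain ⟨N1, hN1⟩ := hbd
  set N := max n (max N0 N1) with hN
  have hnN : n ≤ N := le_max_left _ _
  have hN0N : N0 ≤ N := (le_max_left _ _).trans (le_max_right _ _)
  have hN1N : N1 ≤ N := (le_max_right _ _).trans (le_max_right _ _)
  have hON : O ∩ (pn N).Y ∈ p.R := (((h.un.le N).cp.ring _).1 (hO3 N)).1
  refine (((h.un.le n).pr _ hON).union ((hWW.image fun q => q.2 * q.1⁻¹).union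
    (finite_singleton 1))).subset ?_
  rintro g ⟨x, hx, y, hy, hg⟩
  by_cases hxp : x ∈ p.Y
  · by_cases hxN : x ∈ (pn N).Y
    · left
      exact ⟨x, ⟨hx, hxN⟩, y, ⟨hy, (Acts.stay (h15_stay h hnN) hg).1 hxN⟩, hg⟩
    · right
      left
      have hex : ∃ m, x ∈ (pn m).Y := by
        rw [h.un.Y, mem_iUnion] at hxp
        exact hxp
      classical
      set m0 := Nat.find hex with hm0
      have hm0x : x ∈ (pn m0).Y := Nat.find_spec hex
      have hNm0 : N < m0 := by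
        by_contra hc
        exact hxN (h15_mono h (not_lt.1 hc) hm0x)
      obtain ⟨m, hm⟩ : ∃ m, m0 = m + 1 := ⟨m0 - 1, by omega⟩
      have hNm : N ≤ m := by omega
      have hxm : x ∉ (pn m).Y := Nat.find_min hex (by omega)
      rw [hm] at hm0x
      have hym : y ∉ (pn m).Y := fun hc =>
        hxm ((Acts.stay (h15_stay h (hnN.trans hNm)) hg).2 hc)
      have hym' : y ∈ (pn (m + 1)).Y :=
        (Acts.stay (h15_stay h (hnN.trans (hNm.trans (Nat.le_succ m)))) hg).1 hm0x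
      have hx1 : x ∈ O ∩ Itv pn m := ⟨hx, hm0x, hxm⟩
      have hy1 : y ∈ O ∩ Itv pn m := ⟨hy, hym', hym⟩
      rw [hO4 m (hN0N.trans hNm), mem_iUnion₂] at hx1 hy1
      obtain ⟨w, hw, hxw⟩ := hx1
      obtain ⟨w', hw', hyw⟩ := hy1
      exact ⟨(w, w'), ⟨hw, hw'⟩, (hN1 (w, w') ⟨hw, hw'⟩ m (hN1N.trans hNm) x hxw y hyw g hg).symm⟩
  · right
    right
    have key : ∀ g x y, Acts (New (pn n) p) g x y → x ∉ p.Y → g = 1 ∧ y = x := by
      intro g x y hg
      induction hg with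
      | one x => exact fun _ => ⟨rfl, rfl⟩
      | fwd _ hG ih =>
        intro hx
        obtain ⟨h1, h2⟩ := ih hx
        rw [h2] at hG
        exact absurd hG.2.1 hx
      | @bwd g x y z i _ hG ih =>
        intro hx
        obtain ⟨h1, h2⟩ := ih hx
        obtain ⟨hi, hz, -, hy⟩ := hG
        have h3 : y ∈ p.Y := by
          rw [hy]
          exact (h.b.ce i ((h.un.le n).S hi)).maps z hz
        rw [h2] at h3
        exact absurd h3 hx
    exact (key g x y hg hxp).1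

theorem limS_semi (hα : Ind α) (h : LimSet α pn p xn pt) (hK : EK pn p xn pt K)
    (hν : InjOn ν (R0 p xn)) (hν' : ∀ w ∈ R0 p xn, ν w ∉ p.Y) :
    Semi α pn (limS pn p xn pt K ν) := by
  have hY : ∀ x, x ∉ (limS pn p xn pt K ν).Y → x ∉ p.Y ∧ ¬ ∃ w ∈ R0 p xn, ν w = x :=
    fun x hx => ⟨fun hx' => hx (Or.inl hx'), fun ⟨w, hw, hwx⟩ => hx (Or.inr ⟨w, hw, hwx⟩)⟩
  constructor
  · -- basic
    constructor
    · exact h.b.cY.union (h.r0_countable.image ν)
    · exact h.b.cS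
    · exact limS_gr hα h hK hν hν'
    · intro x
      by_cases hx : x ∈ p.Y
      · have h2 : (limS pn p xn pt K ν).r x = p.r x := by simp only [limS, if_pos hx]
        rw [h2]; exact h.b.ra x
      · by_cases hw : ∃ w ∈ R0 p xn, ν w = x
        · obtain ⟨w, hw, rfl⟩ := hw
          exact (limS_rank hα h hν hν' hw).1
        · have h2 : (limS pn p xn pt K ν).r x = 0 := by
            simp only [limS, if_neg hx, dif_neg hw]
          rw [h2]
          exact lt_trans zero_lt_one hα.one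
    · intro x hx
      obtain ⟨h1, h2⟩ := hY x hx
      simp only [limS, if_neg h1, dif_neg h2]
    · intro i hi
      exact limS_ce hα h hK hν hν' hi
    · intro i hi
      funext x
      have hi' : i ∉ p.S := hi
      simp only [limS, if_neg hi', id]
    · intro i hi x hx
      obtain ⟨h1, h2⟩ := hY x hx
      have hi' : i ∈ p.S := hi
      simp only [limS, if_pos hi', if_neg h1, dif_neg h2]
  · exact h.un.S
  · exact h15_cp h hν'
  · intro n i hi x hx
    rw [limS_h_old ν ((h.un.le n).S hi) (h15_sub h n hx)]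
    exact (h.un.le n).h i hi x hx
  · intro n i hi x hx hxn
    rcases hx with hx | ⟨w, hw, rfl⟩
    · rw [limS_h_old ν ((h.un.le n).S hi) hx]
      exact (h.un.le n).out i hi x hx hxn
    · exact fun hc => h15_out h hν hν' ((h.un.le n).S hi) hw (h15_sub h n hc)
  · intro O hO
    rw [h15_old h]
    exact hO.2.1
  · intro i hi x hx hx'
    rw [h15_old h] at hx' ⊢
    rcases hx with hx | ⟨w, hw, rfl⟩
    · exact absurd hx hx'
    · exact h15_out h hν hν' hi hw
  · rintro i hi0 y ⟨x, hx, rfl⟩ hy O hO hyO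
    have hi : i ∈ p.S := hi0
    rw [h15_old h] at hy ⊢
    rcases hx with hx | ⟨w, hw, rfl⟩
    · rw [limS_h_old ν hi hx] at hy
      exact absurd ((h.b.ce i hi).maps x hx) hy
    · rw [limS_h_new hν hν' hi hw] at hyO
      obtain ⟨N0, hN0⟩ := hO.2.2.2
      obtain ⟨N1, hN1⟩ := hK.e1 w hw
      obtain ⟨N2, hN2⟩ := hK.e1 _ (h.of_mul_mem hw hi)
      obtain ⟨N3, hN3⟩ := hw
      set m := max (max N0 N1) (max N2 N3) with hm
      have hm0 : N0 ≤ m := (le_max_left _ _).trans (le_max_left _ _)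
      have hm1 : N1 ≤ m := (le_max_right _ _).trans (le_max_left _ _)
      have hm2 : N2 ≤ m := (le_max_left _ _).trans (le_max_right _ _)
      have hm3 : N3 ≤ m := (le_max_right _ _).trans (le_max_right _ _)
      obtain ⟨-, h1, h2, -⟩ := hN1 m hm1
      obtain ⟨-, -, h3, -⟩ := hN2 m hm2
      obtain ⟨y, hy'⟩ := hN3 m hm3
      have h4 : pt m w ∈ p.Y := h15_itv_sub h m (h1 h2)
      have h5 : pt m (FreeGroup.of i * w) = p.h i (pt m w) := by
        rw [h.pt m w y hy'] at h4 ⊢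
        exact h.pt m _ _ (Acts.fwd hy' ⟨hi, h4, rfl⟩)
      rw [h5] at h3
      have h6 : p.h i (pt m w) ∈ O := by
        have h7 : p.h i (pt m w) ∈ O ∩ Itv pn m := by
          rw [hN0 m hm0, mem_iUnion₂]
          exact ⟨FreeGroup.of i * w, ⟨h.of_mul_mem ⟨N3, hN3⟩ hi, hyO⟩, h3⟩
        exact h7.1
      exact ⟨_, h6, ⟨pt m w, Or.inl h4, limS_h_old ν hi h4⟩, (h.b.ce i hi).maps _ h4⟩
  · exact h15_frL h hν hν'
  · intro n O hO
    refine (h15_pr h hK hν hν' n hO).subset ?_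
    rintro g ⟨x, hx, y, hy, hg⟩
    exact ⟨x, hx, y, hy, Acts.mono (h15_graph h n) hg⟩
  · intro n
    exact Free.mono (h15_graph h n) (h.un.le n).fr

end J5a

end Pool.Agent.Helper33.QB
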